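import Pool.Agent.Lib.MP_a19137_co.Kol45

set_option autoImplicit false
set_option maxRecDepth 100000

namespace Pool.Agent.Lib.Kol45

theorem q14_3366 : chkR 15 (dec 14 3366) = true := by decide +kernel

theorem q14_6444 : chkR 15 (dec 14 6444) = true := by decide +kernel

theorem r14 : (c14.all fun c =>
    (c == 3366 || c == 6444) ||
      chkR 15 (dec 14 c)) = true := by
  decide +kernel

theorem k14 : (c14.all fun c => chkR 15 (dec 14 c)) = true := by
  rw [List.all_eq_true]
  intro c hc
  have h := List.all_eq_true.1 r14 c hc
  simp only [Bool.or_eq_true, beq_iff_eq] at h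
  rcases h with ((rfl | rfl)) | h
  · exact q14_3366
  · exact q14_6444
  · exact h

end Pool.Agent.Lib.Kol45
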