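import Pool.Agent.Lib.MP_a19137_co.Kol45

set_option autoImplicit false
set_option maxRecDepth 100000

namespace Pool.Agent.Lib.Kol45

theorem q18_45658 : chkR 15 (dec 18 45658) = true := by decide +kernel

theorem q18_46234 : chkR 15 (dec 18 46234) = true := by decide +kernel

theorem q18_91316 : chkR 15 (dec 18 91316) = true := by decide +kernel

theorem q18_92468 : chkR 15 (dec 18 92468) = true := by decide +kernel

theorem r18 : (c18.all fun c =>
    (c == 45658 || c == 46234 || c == 91316 || c == 92468) ||
      chkR 15 (dec 18 c)) = true := by
  decide +kernel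

theorem k18 : (c18.all fun c => chkR 15 (dec 18 c)) = true := by
  rw [List.all_eq_true]
  intro c hc
  have h := List.all_eq_true.1 r18 c hc
  simp only [Bool.or_eq_true, beq_iff_eq] at h
  rcases h with ((((rfl | rfl) | rfl) | rfl)) | h
  · exact q18_45658
  · exact q18_46234
  · exact q18_91316
  · exact q18_92468
  · exact h

end Pool.Agent.Lib.Kol45
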