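import Pool.Agent.Lib.MP_a19137_co.K10
import Pool.Agent.Lib.MP_a19137_co.K14
import Pool.Agent.Lib.MP_a19137_co.K18

set_option autoImplicit false

namespace Pool.Agent.Lib.Kol45

variable {s : ℕ → ℕ}

theorem all (H : Kol s) (x L : ℕ) (h0 : 1 ≤ L) (h1 : L ≤ 19) (h2 : L ≠ 16) :
    ∃ j ≤ 17, Odd ((sg s)^[j] (x + L) - (sg s)^[j] x) := by
  rcases Nat.even_or_odd L with he | ho
  · have h3 : L = 2 ∨ L = 4 ∨ L = 6 ∨ L = 8 ∨ L = 10 ∨ L = 12 ∨ L = 14 ∨ L = 18 := by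
      obtain ⟨k, rfl⟩ := he
      omega
    rcases h3 with rfl | rfl | rfl | rfl | rfl | rfl | rfl | rfl
    · exact (f2 H).chk H k2 x
    · exact (f4 H).chk H k4 x
    · exact (f6 H).chk H k6 x
    · exact (f8 H).chk H k8 x
    · exact (f10 H).chk H k10 x
    · exact (f12 H).chk H k12 x
    · exact (f14 H).chk H k14 x
    · exact (f18 H).chk H k18 x
  · exact ⟨0, by omega, by simpa using ho⟩

end Pool.Agent.Lib.Kol45
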