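import Pool.Agent.Lib.MP_a19137_co.Kol45

/-!
# Existence of the Kolakoski sequence
-/

set_option autoImplicit false

namespace Pool.Agent.Lib.Kol45

/-- The first `m` runs. -/
def LL : ℕ → List ℕ
  | 0 => []
  | m + 1 => LL m ++ List.replicate
      (if m = 0 then 1 else if m = 1 then 2 else (LL m).getD m 0) (if Even m then 1 else 2)

/-- The number of letters in run `m + 1`. -/
def cc (m : ℕ) : ℕ := if m = 0 then 1 else if m = 1 then 2 else (LL m).getD m 0

/-- The sequence. -/
def ks (n : ℕ) : ℕ := (LL n).getD (n - 1) 0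

theorem LL_succ (m : ℕ) : LL (m + 1) = LL m ++ List.replicate (cc m) (if Even m then 1 else 2) :=
  rfl

theorem LL_letters : ∀ m, ∀ a ∈ LL m, a = 1 ∨ a = 2
  | 0, a, h => by simp [LL] at h
  | m + 1, a, h => by
    rw [LL_succ, List.mem_append] at h
    rcases h with h | h
    · exact LL_letters m a h
    · have := List.eq_of_mem_replicate h
      rw [this]
      by_cases hm : Even m <;> simp [hm]

theorem getD_letters (m i : ℕ) (h : i < (LL m).length) :
    (LL m).getD i 0 = 1 ∨ (LL m).getD i 0 = 2 := by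
  rw [List.getD_eq_getElem _ _ h]
  exact LL_letters m _ (List.getElem_mem h)

theorem LL_length2 : ∀ m, m + 3 ≤ (LL (m + 2)).length
  | 0 => by decide
  | m + 1 => by
    have ih := LL_length2 m
    rw [LL_succ, List.length_append, List.length_replicate]
    have h1 : cc (m + 2) = (LL (m + 2)).getD (m + 2) 0 := by
      unfold cc
      rw [if_neg (by omega), if_neg (by omega)]
    have h2 := getD_letters (m + 2) (m + 2) (by omega)
    omega

theorem LL_length (n : ℕ) (hn : 1 ≤ n) : n ≤ (LL n).length := by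
  rcases Nat.lt_or_ge n 2 with h | h
  · have : n = 1 := by omega
    subst this
    decide
  · obtain ⟨m, rfl⟩ := Nat.exists_eq_add_of_le' h
    have := LL_length2 m
    omega

theorem stab : ∀ (k m i : ℕ), i < (LL m).length → (LL (m + k)).getD i 0 = (LL m).getD i 0 ∧
    i < (LL (m + k)).length
  | 0, m, i, h => ⟨rfl, h⟩
  | k + 1, m, i, h => by
    obtain ⟨h1, h2⟩ := stab k m i h
    rw [← add_assoc, LL_succ]
    constructor
    · rw [List.getD_append _ _ _ _ h2, h1]
    · rw [List.length_append]; omega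

theorem ks_eq (n m : ℕ) (hn : 1 ≤ n) (h : n ≤ (LL m).length) : ks n = (LL m).getD (n - 1) 0 := by
  unfold ks
  rcases Nat.le_total n m with h1 | h1
  · obtain ⟨k, rfl⟩ := Nat.exists_eq_add_of_le h1
    exact (stab k n (n - 1) (by have := LL_length n hn; omega)).1.symm
  · obtain ⟨k, rfl⟩ := Nat.exists_eq_add_of_le h1
    exact (stab k m _ (by omega)).1

theorem cc_eq (m : ℕ) : cc m = ks (m + 1) := by
  rcases Nat.lt_or_ge m 2 with h | h
  · interval_cases m <;> decide
  · obtain ⟨k, rfl⟩ := Nat.exists_eq_add_of_le' h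
    have h1 := LL_length2 k
    rw [ks_eq (k + 2 + 1) (k + 2) (by omega) (by omega)]
    unfold cc
    rw [if_neg (by omega), if_neg (by omega)]
    rfl

theorem sg_ks : ∀ m, sg ks m = (LL m).length
  | 0 => by rw [sg_zero]; rfl
  | m + 1 => by
    rw [sg_succ, sg_ks m, LL_succ, List.length_append, List.length_replicate, cc_eq]

theorem entry (m i : ℕ) (h1 : sg ks m < i) (h2 : i ≤ sg ks (m + 1)) :
    ks i = if Even m then 1 else 2 := by
  rw [sg_ks] at h1 h2
  rw [ks_eq i (m + 1) (by omega) h2, LL_succ, List.getD_append_right _ _ _ _ (by omega)]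
  rw [LL_succ, List.length_append, List.length_replicate] at h2
  rw [List.getD_eq_getElem _ _ (by rw [List.length_replicate]; omega), List.getElem_replicate]

theorem exists_kol : ∃ s : ℕ → ℕ, Kol s := by
  have hl : ∀ n, 1 ≤ n → ks n = 1 ∨ ks n = 2 := fun n hn => by
    rw [ks_eq n n hn (LL_length n hn)]
    exact getD_letters n _ (by have := LL_length n hn; omega)
  have he : ∀ m, ks (sg ks (m + 1)) = if Even m then 1 else 2 := fun m => by
    refine entry m _ ?_ le_rfl
    rw [sg_succ]
    rcases hl (m + 1) (by omega) with h | h <;> omega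
  refine ⟨ks, hl, by decide, ?_, ?_⟩
  · intro m hm i h1 h2
    obtain ⟨k, rfl⟩ := Nat.exists_eq_add_of_le' hm
    rw [entry k i h1 h2, he]
  · intro m hm
    obtain ⟨k, rfl⟩ := Nat.exists_eq_add_of_le' hm
    rw [he, entry (k + 1) _ (by omega) (by
      rw [sg_succ (k + 1)]
      rcases hl (k + 1 + 1) (by omega) with h | h <;> omega)]
    by_cases hk : Even k
    · simp [hk, Nat.even_add_one]
    · simp [hk, Nat.even_add_one]

end Pool.Agent.Lib.Kol45
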