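import Pool.Agent.Lib.MP_a19137_co.Kol45

set_option autoImplicit false
set_option maxRecDepth 100000

namespace Pool.Agent.Lib.Kol45

theorem q10_603 : chkR 15 (dec 10 603) = true := by decide +kernel

theorem q10_723 : chkR 15 (dec 10 723) = true := by decide +kernel

theorem q10_813 : chkR 15 (dec 10 813) = true := by decide +kernel

theorem q10_873 : chkR 15 (dec 10 873) = true := by decide +kernel

theorem r10 : (c10.all fun c =>
    (c == 603 || c == 723 || c == 813 || c == 873) ||
      chkR 15 (dec 10 c)) = true := by
  decide +kernel

theorem k10 : (c10.all fun c => chkR 15 (dec 10 c)) = true := by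
  rw [List.all_eq_true]
  intro c hc
  have h := List.all_eq_true.1 r10 c hc
  simp only [Bool.or_eq_true, beq_iff_eq] at h
  rcases h with ((((rfl | rfl) | rfl) | rfl)) | h
  · exact q10_603
  · exact q10_723
  · exact q10_813
  · exact q10_873
  · exact h

end Pool.Agent.Lib.Kol45
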