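import Mathlib

/-!
# Short subrows of the Kolakoski sequence are not regular

For a subrow `s (x+1), .., s (x+L)` the next iterated integral is determined by the letters and the
parity of `x`; the search `chk` follows both parities.
-/

set_option autoImplicit false
set_option maxRecDepth 100000

namespace Pool.Agent.Lib.Kol45

open Finset

/-- The sum of the letters at the positions `1, .., n`. -/
def sg (s : ℕ → ℕ) (n : ℕ) : ℕ := ∑ i ∈ Finset.Icc 1 n, s i

/-- The conditions of the Kolakoski sequence. -/
structure Kol (s : ℕ → ℕ) : Prop where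
  letters : ∀ n, 1 ≤ n → s n = 1 ∨ s n = 2
  first : s 1 = 1
  run : ∀ m, 1 ≤ m → ∀ i, sg s (m - 1) < i → i ≤ sg s m → s i = s (sg s m)
  change : ∀ m, 1 ≤ m → s (sg s m + 1) ≠ s (sg s m)

variable {s : ℕ → ℕ}

theorem sg_zero : sg s 0 = 0 := by simp [sg]

theorem sg_succ (n : ℕ) : sg s (n + 1) = sg s n + s (n + 1) := by
  unfold sg
  rw [Finset.sum_Icc_succ_top (by omega)]

theorem sg_one : sg s 1 = s 1 := by rw [sg_succ, sg_zero, zero_add]

theorem sg_mono : Monotone (sg s) :=
  monotone_nat_of_le_succ fun n => by rw [sg_succ]; omega

theorem sg_pos (H : Kol s) (m : ℕ) (hm : 1 ≤ m) : 1 ≤ sg s m := by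
  have h := sg_mono (s := s) hm
  rw [sg_one, H.first] at h
  exact h

theorem letter_end (H : Kol s) : ∀ m, s (sg s (m + 1)) = if Even m then 1 else 2 := by
  intro m
  induction m with
  | zero => rw [sg_one, H.first, H.first]; simp
  | succ m ih =>
    have h1 := H.change (m + 1) (by omega)
    have h2 := H.letters (m + 2) (by omega)
    have h3 : sg s (m + 1 + 1) = sg s (m + 1) + s (m + 1 + 1) := sg_succ _
    have h4 : s (sg s (m + 1) + 1) = s (sg s (m + 1 + 1)) := by
      refine H.run (m + 1 + 1) (by omega) _ ?_ ?_
      · simp
      · rw [h3]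
        rcases h2 with h | h <;> rw [h] <;> omega
    rw [← h4]
    have h5 := H.letters (sg s (m + 1) + 1) (by omega)
    by_cases hm : Even m
    · rw [if_pos hm] at ih
      rw [if_neg (by rw [Nat.even_add_one]; simpa using hm)]
      rw [ih] at h1
      tauto
    · rw [if_neg hm] at ih
      rw [if_pos (by rw [Nat.even_add_one]; exact hm)]
      rw [ih] at h1
      tauto

theorem letter (H : Kol s) (x i : ℕ) (h1 : sg s x < i) (h2 : i ≤ sg s (x + 1)) :
    (s i == 2) = decide (Odd x) := by
  rw [H.run (x + 1) (by omega) i (by simpa using h1) h2, letter_end H]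
  by_cases hx : Even x
  · rw [if_pos hx]
    have : ¬ Odd x := by rwa [Nat.not_odd_iff_even]
    simp [this]
  · rw [if_neg hx]
    have : Odd x := by rwa [← Nat.not_even_iff_odd]
    simp [this]

/-! ### Words -/

/-- The letters at the positions `x + 1, .., x + n`; `true` is the letter 2. -/
def wd (s : ℕ → ℕ) : ℕ → ℕ → List Bool
  | _, 0 => []
  | x, n + 1 => (s (x + 1) == 2) :: wd s (x + 1) n

theorem wd_length : ∀ (n x : ℕ), (wd s x n).length = n
  | 0, _ => rfl
  | n + 1, x => by rw [wd, List.length_cons, wd_length n (x + 1)]

theorem wd_add : ∀ (a b x : ℕ), wd s x (a + b) = wd s x a ++ wd s (x + a) b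
  | 0, b, x => by rw [zero_add]; rfl
  | a + 1, b, x => by
    rw [show a + 1 + b = (a + b) + 1 by ring, wd, wd_add a b (x + 1), wd,
      show x + 1 + a = x + (a + 1) by ring, List.cons_append]

theorem wd_take (x n L : ℕ) (h : L ≤ n) : (wd s x n).take L = wd s x L := by
  obtain ⟨k, rfl⟩ := Nat.exists_eq_add_of_le h
  rw [wd_add, List.take_left' (wd_length _ _)]

theorem wd_drop (x n i L : ℕ) (h : i + L ≤ n) : ((wd s x n).drop i).take L = wd s (x + i) L := by
  obtain ⟨k, rfl⟩ := Nat.exists_eq_add_of_le h
  rw [show i + L + k = i + (L + k) by ring, wd_add, List.drop_left' (wd_length _ _), wd_take]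
  omega

theorem wd_const (b : Bool) : ∀ (n x : ℕ), (∀ i, x < i → i ≤ x + n → (s i == 2) = b) →
    wd s x n = List.replicate n b
  | 0, _, _ => rfl
  | n + 1, x, h => by
    rw [wd, List.replicate_succ, h (x + 1) (by omega) (by omega),
      wd_const b n (x + 1) (fun i h1 h2 => h i (by omega) (by omega))]

/-- Integration of a word, `b` is the first letter. -/
def integ : Bool → List Bool → List Bool
  | _, [] => []
  | b, true :: w => b :: b :: integ (!b) w
  | b, false :: w => b :: integ (!b) w

theorem integ_wd (H : Kol s) : ∀ (n x : ℕ),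
    integ (decide (Odd x)) (wd s x n) = wd s (sg s x) (sg s (x + n) - sg s x)
  | 0, x => by simp [wd, integ]
  | n + 1, x => by
    have h1 : sg s (x + (n + 1)) - sg s x = s (x + 1) + (sg s (x + 1 + n) - sg s (x + 1)) := by
      have h2 := sg_mono (s := s) (show x + 1 ≤ x + 1 + n by omega)
      have h3 : sg s (x + 1) = sg s x + s (x + 1) := sg_succ _
      rw [show x + (n + 1) = x + 1 + n by ring]
      omega
    have h2 : wd s (sg s x) (s (x + 1)) = List.replicate (s (x + 1)) (decide (Odd x)) := by
      refine wd_const _ _ _ fun i hi1 hi2 => letter H x i hi1 ?_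
      rw [sg_succ]; exact hi2
    have h3 : (!decide (Odd x)) = decide (Odd (x + 1)) := by
      simp only [Nat.odd_add_one]
      by_cases hx : Odd x <;> simp [hx]
    have h4 := integ_wd H n (x + 1)
    rw [h1, wd_add (s (x + 1)), h2, ← sg_succ, wd]
    rcases H.letters (x + 1) (by omega) with h | h
    · rw [h, show ((1 : ℕ) == 2) = false from rfl]
      change decide (Odd x) :: integ (!decide (Odd x)) (wd s (x + 1) n) = _
      rw [h3, h4]
      rfl
    · rw [h, show ((2 : ℕ) == 2) = true from rfl]
      change decide (Odd x) :: decide (Odd x) :: integ (!decide (Odd x)) (wd s (x + 1) n) = _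
      rw [h3, h4]
      rfl

/-! ### Evaluation friendly versions -/

/-- Reversed integration with an accumulator. -/
def itA : Bool → List Bool → List Bool → List Bool
  | _, [], acc => acc
  | true, true :: w, acc => itA false w (true :: true :: acc)
  | true, false :: w, acc => itA false w (true :: acc)
  | false, true :: w, acc => itA true w (false :: false :: acc)
  | false, false :: w, acc => itA true w (false :: acc)

/-- Reversal with an accumulator. -/
def rv : List Bool → List Bool → List Bool
  | [], acc => acc
  | a :: l, acc => rv l (a :: acc)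

theorem rv_eq : ∀ l acc, rv l acc = l.reverse ++ acc
  | [], acc => rfl
  | a :: l, acc => by rw [rv, rv_eq l]; simp

theorem itA_eq : ∀ (w : List Bool) (b : Bool) (acc : List Bool),
    itA b w acc = (integ b w).reverse ++ acc
  | [], b, acc => by cases b <;> simp [itA, integ]
  | true :: w, true, acc => by simp [itA, integ, itA_eq w]
  | true :: w, false, acc => by simp [itA, integ, itA_eq w]
  | false :: w, true, acc => by simp [itA, integ, itA_eq w]
  | false :: w, false, acc => by simp [itA, integ, itA_eq w]

/-- Integration, evaluated strictly. -/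
def iS (b : Bool) (w : List Bool) : List Bool := rv (itA b w []) []

theorem iS_eq (b : Bool) (w : List Bool) : iS b w = integ b w := by
  rw [iS, rv_eq, itA_eq]; simp

/-- Parity of the number of letters 1 (`false`). -/
def par1 : List Bool → Bool → Bool
  | [], p => p
  | true :: l, p => par1 l p
  | false :: l, true => par1 l false
  | false :: l, false => par1 l true

/-- Parity of the number of letters 1 at the positions 1, 3, .. (first argument `true`). -/
def po : Bool → List Bool → Bool → Bool
  | _, [], p => p
  | true, true :: l, p => po false l p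
  | true, false :: l, true => po false l false
  | true, false :: l, false => po false l true
  | false, _ :: l, p => po true l p

/-- Number of letters 1. -/
def n1 : List Bool → ℕ
  | [] => 0
  | true :: l => n1 l
  | false :: l => n1 l + 1

/-- Number of letters 1 at the positions 1, 3, .. or 2, 4, .. -/
def c1 : Bool → List Bool → ℕ
  | _, [] => 0
  | true, true :: l => c1 false l
  | true, false :: l => c1 false l + 1
  | false, _ :: l => c1 true l

theorem par1_eq : ∀ (l : List Bool) (p : Bool), par1 l p = xor p (decide (n1 l % 2 = 1))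
  | [], p => by simp [par1, n1]
  | true :: l, p => by rw [par1, n1, par1_eq l]
  | false :: l, true => by
    rw [par1, n1, par1_eq l]
    rcases Nat.mod_two_eq_zero_or_one (n1 l) with h | h <;>
      simp [h, Nat.add_mod]
  | false :: l, false => by
    rw [par1, n1, par1_eq l]
    rcases Nat.mod_two_eq_zero_or_one (n1 l) with h | h <;>
      simp [h, Nat.add_mod]

theorem po_eq : ∀ (l : List Bool) (f p : Bool), po f l p = xor p (decide (c1 f l % 2 = 1))
  | [], f, p => by cases f <;> simp [po, c1]
  | true :: l, true, p => by rw [po, c1, po_eq l]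
  | false :: l, true, true => by
    rw [po, c1, po_eq l]
    rcases Nat.mod_two_eq_zero_or_one (c1 false l) with h | h <;>
      simp [h, Nat.add_mod]
  | false :: l, true, false => by
    rw [po, c1, po_eq l]
    rcases Nat.mod_two_eq_zero_or_one (c1 false l) with h | h <;>
      simp [h, Nat.add_mod]
  | _ :: l, false, p => by rw [po, c1, po_eq l]

theorem c1_add : ∀ l : List Bool, c1 true l + c1 false l = n1 l
  | [] => by simp [c1, n1]
  | true :: l => by
    have := c1_add l
    simp only [c1, n1]; omega
  | false :: l => by
    have := c1_add l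
    simp only [c1, n1]; omega

theorem length_integ : ∀ (l : List Bool) (b : Bool), (integ b l).length % 2 = n1 l % 2
  | [], b => by simp [integ, n1]
  | true :: l, b => by
    have := length_integ l (!b)
    simp only [integ, n1, List.length_cons]; omega
  | false :: l, b => by
    have := length_integ l (!b)
    simp only [integ, n1, List.length_cons]; omega

theorem n1_integ : ∀ (l : List Bool),
    n1 (integ false l) % 2 = c1 true l % 2 ∧ n1 (integ true l) % 2 = c1 false l % 2
  | [] => by simp [integ, n1, c1]
  | true :: l => by
    obtain ⟨h1, h2⟩ := n1_integ l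
    simp only [integ, n1, c1, Bool.not_true, Bool.not_false]
    omega
  | false :: l => by
    obtain ⟨h1, h2⟩ := n1_integ l
    simp only [integ, n1, c1, Bool.not_true, Bool.not_false]
    omega

/-- All itineraries die within the given number of integrations. -/
def chk : ℕ → List Bool → Bool
  | 0, w => par1 w false || po true w false
  | n + 1, w => match w with
    | [] => false
    | a :: l => par1 (a :: l) false || (po true (a :: l) false ||
        (chk n (iS false (a :: l)) && chk n (iS true (a :: l))))

theorem next_eq (x L : ℕ) :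
    sg s x + (sg s (x + L) - sg s x) = sg s (x + L) := by
  have := sg_mono (s := s) (show x ≤ x + L by omega)
  omega

theorem len1 (H : Kol s) (x L : ℕ) (h : par1 (wd s x L) false = true) :
    Odd (sg s (x + L) - sg s x) := by
  rw [par1_eq, Bool.false_xor] at h
  have h1 := length_integ (wd s x L) (decide (Odd x))
  rw [integ_wd H, wd_length, of_decide_eq_true h] at h1
  exact Nat.odd_iff.2 h1

theorem len2 (H : Kol s) (x L : ℕ) (h : po true (wd s x L) false = true) :
    Odd (sg s (x + L) - sg s x) ∨ Odd (sg s (sg s (x + L)) - sg s (sg s x)) := by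
  by_cases h0 : par1 (wd s x L) false = true
  · exact Or.inl (len1 H x L h0)
  right
  rw [par1_eq, Bool.false_xor, decide_eq_true_eq] at h0
  rw [po_eq, Bool.false_xor] at h
  have h1 := of_decide_eq_true h
  have h2 := c1_add (wd s x L)
  obtain ⟨h3, h4⟩ := n1_integ (wd s x L)
  have h5 : n1 (wd s (sg s x) (sg s (x + L) - sg s x)) % 2 = 1 := by
    rw [← integ_wd H]
    cases decide (Odd x)
    · rw [h3]; exact h1
    · rw [h4]; omega
  have h6 := length_integ (wd s (sg s x) (sg s (x + L) - sg s x)) (decide (Odd (sg s x)))
  rw [integ_wd H, wd_length, h5, next_eq] at h6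
  exact Nat.odd_iff.2 h6

theorem chk_sound (H : Kol s) : ∀ (n x L : ℕ), chk n (wd s x L) = true →
    ∃ j ≤ n + 2, Odd ((sg s)^[j] (x + L) - (sg s)^[j] x)
  | 0, x, L, h => by
    rw [chk, Bool.or_eq_true] at h
    rcases h with h | h
    · exact ⟨1, by omega, by simpa using len1 H x L h⟩
    · rcases len2 H x L h with h | h
      · exact ⟨1, by omega, by simpa using h⟩
      · exact ⟨2, by omega, by simpa using h⟩
  | n + 1, x, L, h => by
    cases hw : wd s x L with
    | nil => rw [hw] at h; simp [chk] at h
    | cons a l =>
      rw [hw, chk] at h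
      rw [← hw] at h
      rw [Bool.or_eq_true, Bool.or_eq_true, Bool.and_eq_true, iS_eq, iS_eq] at h
      rcases h with h | h | ⟨h1, h2⟩
      · exact ⟨1, by omega, by simpa using len1 H x L h⟩
      · rcases len2 H x L h with h | h
        · exact ⟨1, by omega, by simpa using h⟩
        · exact ⟨2, by omega, by simpa using h⟩
      · have h3 : chk n (wd s (sg s x) (sg s (x + L) - sg s x)) = true := by
          rw [← integ_wd H]
          cases decide (Odd x)
          · exact h1
          · exact h2
        obtain ⟨j, hj, h4⟩ := chk_sound H n _ _ h3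
        refine ⟨j + 1, by omega, ?_⟩
        rw [Function.iterate_succ_apply, Function.iterate_succ_apply]
        rwa [next_eq] at h4

/-! ### Codes of words -/

/-- The word of length `n` with code `m`. -/
def dec : ℕ → ℕ → List Bool
  | 0, _ => []
  | n + 1, m => (m % 2 == 1) :: dec n (m / 2)

/-- The code of a word. -/
def enc : List Bool → ℕ
  | [] => 0
  | true :: l => 2 * enc l + 1
  | false :: l => 2 * enc l

theorem dec_enc : ∀ l : List Bool, dec l.length (enc l) = l
  | [] => rfl
  | true :: l => by
    rw [List.length_cons, dec, enc]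
    have h1 : (2 * enc l + 1) % 2 = 1 := by omega
    have h2 : (2 * enc l + 1) / 2 = enc l := by omega
    rw [h1, h2, dec_enc l]; rfl
  | false :: l => by
    rw [List.length_cons, dec, enc]
    have h1 : (2 * enc l) % 2 = 0 := by omega
    have h2 : (2 * enc l) / 2 = enc l := by omega
    rw [h1, h2, dec_enc l]; rfl

/-- All factors of length `L` have their code in the list. -/
def Fac (s : ℕ → ℕ) (L : ℕ) (c : List ℕ) : Prop := ∀ x, c.contains (enc (wd s x L)) = true

/-- The windows of length `L` of the integrals of the words of length `r`. -/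
def stepOK (r L : ℕ) (cr cL : List ℕ) : Bool :=
  cr.all fun c => [false, true].all fun b =>
    (decide (L ≤ (iS b (dec r c)).length) && cL.contains (enc ((iS b (dec r c)).take L))) &&
    (match dec r c with
      | true :: _ => decide (1 + L ≤ (iS b (dec r c)).length) &&
          cL.contains (enc (((iS b (dec r c)).drop 1).take L))
      | _ => true)

theorem exists_run (H : Kol s) (x : ℕ) : ∃ y, sg s y ≤ x ∧ x < sg s (y + 1) := by
  have h1 : ∀ y, y ≤ sg s y := by
    intro y
    induction y with
    | zero => omega
    | succ y ih =>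
      rw [sg_succ]
      rcases H.letters (y + 1) (by omega) with h | h <;> rw [h] <;> omega
  classical
  have h2 : ∃ y, x < sg s (y + 1) := ⟨x, lt_of_lt_of_le (by omega) (h1 (x + 1))⟩
  refine ⟨Nat.find h2, ?_, Nat.find_spec h2⟩
  rcases Nat.eq_zero_or_pos (Nat.find h2) with h | h
  · rw [h, sg_zero]; omega
  · have h3 := Nat.find_min h2 (m := Nat.find h2 - 1) (by omega)
    rw [Nat.sub_add_cancel h] at h3
    omega

theorem step (H : Kol s) {r L : ℕ} {cr cL : List ℕ} (hr : 1 ≤ r) (h : Fac s r cr)
    (hs : stepOK r L cr cL = true) : Fac s L cL := by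
  intro x
  obtain ⟨y, hy1, hy2⟩ := exists_run H x
  have h1 := h y
  rw [List.contains_iff_mem] at h1
  unfold stepOK at hs
  rw [List.all_eq_true] at hs
  have h2 := hs _ h1
  rw [List.all_eq_true] at h2
  have h3 := h2 (decide (Odd y)) (by cases decide (Odd y) <;> simp)
  have h4 : dec r (enc (wd s y r)) = wd s y r := by
    have := dec_enc (wd s y r)
    rwa [wd_length] at this
  rw [h4, iS_eq, integ_wd H, wd_length] at h3
  rw [Bool.and_eq_true, Bool.and_eq_true] at h3
  obtain ⟨⟨h5, h6⟩, h7⟩ := h3
  have h5' : L ≤ sg s (y + r) - sg s y := of_decide_eq_true h5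
  rcases Nat.eq_or_lt_of_le hy1 with h8 | h8
  · rw [wd_take _ _ _ h5', h8] at h6
    exact h6
  · have h9 : s (y + 1) = 2 := by
      rw [sg_succ] at hy2
      rcases H.letters (y + 1) (by omega) with h | h
      · rw [h] at hy2; omega
      · exact h
    have h10 : x = sg s y + 1 := by
      rw [sg_succ, h9] at hy2; omega
    obtain ⟨r', rfl⟩ : ∃ r', r = r' + 1 := ⟨r - 1, by omega⟩
    rw [show wd s y (r' + 1) = true :: wd s (y + 1) r' by rw [wd, h9]; rfl] at h7
    change (decide (1 + L ≤ sg s (y + (r' + 1)) - sg s y) &&
      cL.contains (enc (((wd s (sg s y) (sg s (y + (r' + 1)) - sg s y)).drop 1).take L))) = true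
      at h7
    rw [Bool.and_eq_true] at h7
    rw [wd_drop _ _ _ _ (of_decide_eq_true h7.1)] at h7
    rw [h10]
    exact h7.2

theorem fac_all (s : ℕ → ℕ) : Fac s 4 (List.range 16) := by
  intro x
  have : ∀ a b c d : Bool, (List.range 16).contains (enc [a, b, c, d]) = true := by decide
  exact this _ _ _ _

theorem Fac.restrict {L M : ℕ} {cL cM : List ℕ} (h : Fac s L cL) (hM : M ≤ L)
    (hc : (cL.all fun c => cM.contains (enc ((dec L c).take M))) = true) : Fac s M cM := by
  intro x
  have h1 := h x
  rw [List.contains_iff_mem] at h1
  rw [List.all_eq_true] at hc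
  have h2 := hc _ h1
  have h4 : dec L (enc (wd s x L)) = wd s x L := by
    have := dec_enc (wd s x L)
    rwa [wd_length] at this
  rwa [h4, wd_take _ _ _ hM] at h2

/-! ### The same functions by recursors (for fast evaluation) -/

/-- `itA` by the recursor. -/
noncomputable def itR (w : List Bool) : Bool → List Bool → List Bool :=
  List.rec (motive := fun _ => Bool → List Bool → List Bool) (fun _ acc => acc)
    (fun c _ ih b acc => Bool.rec (motive := fun _ => List Bool)
      (Bool.rec (motive := fun _ => List Bool) (ih true (false :: acc)) (ih false (true :: acc)) b)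
      (Bool.rec (motive := fun _ => List Bool) (ih true (false :: false :: acc))
        (ih false (true :: true :: acc)) b) c) w

/-- `rv` by the recursor. -/
noncomputable def rvR (w : List Bool) : List Bool → List Bool :=
  List.rec (motive := fun _ => List Bool → List Bool) (fun acc => acc)
    (fun a _ ih acc => ih (a :: acc)) w

/-- `par1` by the recursor. -/
noncomputable def parR (w : List Bool) : Bool → Bool :=
  List.rec (motive := fun _ => Bool → Bool) (fun p => p)
    (fun c _ ih p => Bool.rec (motive := fun _ => Bool)
      (Bool.rec (motive := fun _ => Bool) (ih true) (ih false) p) (ih p) c) w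

/-- `po` by the recursor. -/
noncomputable def poR (w : List Bool) : Bool → Bool → Bool :=
  List.rec (motive := fun _ => Bool → Bool → Bool) (fun _ p => p)
    (fun c _ ih f p => Bool.rec (motive := fun _ => Bool) (ih true p)
      (Bool.rec (motive := fun _ => Bool)
        (Bool.rec (motive := fun _ => Bool) (ih false true) (ih false false) p)
        (ih false p) c) f) w

theorem itR_eq : ∀ (w : List Bool) (b : Bool) (acc : List Bool), itR w b acc = itA b w acc
  | [], b, acc => by cases b <;> rfl
  | true :: w, true, acc => itR_eq w false (true :: true :: acc)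
  | true :: w, false, acc => itR_eq w true (false :: false :: acc)
  | false :: w, true, acc => itR_eq w false (true :: acc)
  | false :: w, false, acc => itR_eq w true (false :: acc)

theorem rvR_eq : ∀ (w acc : List Bool), rvR w acc = rv w acc
  | [], _ => rfl
  | a :: w, acc => rvR_eq w (a :: acc)

theorem parR_eq : ∀ (w : List Bool) (p : Bool), parR w p = par1 w p
  | [], _ => rfl
  | true :: w, true => parR_eq w true
  | true :: w, false => parR_eq w false
  | false :: w, true => parR_eq w false
  | false :: w, false => parR_eq w true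

theorem poR_eq : ∀ (w : List Bool) (f p : Bool), poR w f p = po f w p
  | [], f, _ => by cases f <;> rfl
  | true :: w, true, p => poR_eq w false p
  | false :: w, true, true => poR_eq w false false
  | false :: w, true, false => poR_eq w false true
  | true :: w, false, p => poR_eq w true p
  | false :: w, false, p => poR_eq w true p

/-- `chk` by the recursor. -/
noncomputable def chkR (n : ℕ) : List Bool → Bool :=
  Nat.rec (motive := fun _ => List Bool → Bool)
    (fun w => List.rec (motive := fun _ => Bool) false (fun a l _ =>
      Bool.rec (motive := fun _ => Bool) (poR (a :: l) true false) true (parR (a :: l) false)) w)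
    (fun _ ih w => List.rec (motive := fun _ => Bool) false (fun a l _ =>
      Bool.rec (motive := fun _ => Bool)
        (Bool.rec (motive := fun _ => Bool)
          (Bool.rec (motive := fun _ => Bool) false (ih (rvR (itR (a :: l) true []) []))
            (ih (rvR (itR (a :: l) false []) [])))
          true (poR (a :: l) true false))
        true (parR (a :: l) false)) w) n

theorem chkR_imp : ∀ (n : ℕ) (w : List Bool), chkR n w = true → chk n w = true
  | 0, [], h => by cases h
  | n + 1, [], h => by cases h
  | 0, a :: l, h => by
    change Bool.rec (motive := fun _ => Bool) (poR (a :: l) true false) true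
      (parR (a :: l) false) = true at h
    rw [parR_eq, poR_eq] at h
    rw [chk]
    cases h1 : par1 (a :: l) false
    · rw [h1] at h
      change po true (a :: l) false = true at h
      rw [h]; rfl
    · rfl
  | n + 1, a :: l, h => by
    change Bool.rec (motive := fun _ => Bool)
        (Bool.rec (motive := fun _ => Bool)
          (Bool.rec (motive := fun _ => Bool) false (chkR n (rvR (itR (a :: l) true []) []))
            (chkR n (rvR (itR (a :: l) false []) [])))
          true (poR (a :: l) true false))
        true (parR (a :: l) false) = true at h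
    rw [parR_eq, poR_eq, itR_eq, itR_eq, rvR_eq, rvR_eq] at h
    rw [chk]
    cases h1 : par1 (a :: l) false
    · rw [h1] at h
      cases h2 : po true (a :: l) false
      · rw [h2] at h
        change Bool.rec (motive := fun _ => Bool) false (chkR n (iS true (a :: l)))
            (chkR n (iS false (a :: l))) = true at h
        cases h3 : chkR n (iS false (a :: l))
        · rw [h3] at h; cases h
        · rw [h3] at h
          change chkR n (iS true (a :: l)) = true at h
          rw [chkR_imp n _ h3, chkR_imp n _ h]; rfl
      · rfl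
    · rfl

theorem Fac.chk {L n : ℕ} {cL : List ℕ} (H : Kol s) (h : Fac s L cL)
    (hc : (cL.all fun c => chkR n (dec L c)) = true) (x : ℕ) :
    ∃ j ≤ n + 2, Odd ((sg s)^[j] (x + L) - (sg s)^[j] x) := by
  have h1 := h x
  rw [List.contains_iff_mem] at h1
  rw [List.all_eq_true] at hc
  have h2 := hc _ h1
  have h4 : dec L (enc (wd s x L)) = wd s x L := by
    have := dec_enc (wd s x L)
    rwa [wd_length] at this
  rw [h4] at h2
  exact chk_sound H n x L (chkR_imp n _ h2)

/-- Codes of the factors of length 2. -/
def c2 : List Nat := [0, 1, 2, 3]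

/-- Codes of the factors of length 4. -/
def c4 : List Nat := [2, 3, 4, 5, 6, 9, 10, 11, 12, 13]

/-- Codes of the factors of length 5. -/
def c5 : List Nat := [4, 5, 6, 9, 11, 12, 13, 18, 19, 20, 22, 25, 26, 27]

/-- Codes of the factors of length 6. -/
def c6 : List Nat := [9, 11, 13, 18, 19, 22, 25, 26, 27, 36, 37, 38, 41, 44, 45, 50, 52, 54]

/-- Codes of the factors of length 7. -/
def c7 : List Nat := [18, 19, 22, 26, 27, 36, 37, 38, 44, 45, 50, 52, 54, 73, 75, 77, 82, 83, 89, 90, 91,
  100, 101, 105, 108, 109]

/-- Codes of the factors of length 8. -/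
def c8 : List Nat := [37, 38, 44, 45, 52, 54, 73, 75, 77, 89, 90, 91, 100, 101, 105, 108, 109, 146, 147, 150,
  154, 155, 164, 165, 166, 178, 180, 182, 201, 203, 210, 211, 217, 218]

/-- Codes of the factors of length 9. -/
def c9 : List Nat := [75, 77, 89, 90, 91, 105, 108, 109, 147, 150, 154, 155, 178, 180, 182, 201, 203, 210,
  211, 217, 218, 293, 294, 300, 301, 308, 310, 329, 331, 333, 356, 357, 361, 364, 402,
  403, 406, 420, 421, 422, 434, 436]

/-- Codes of the factors of length 10. -/
def c10 : List Nat := [150, 154, 155, 178, 180, 182, 210, 217, 218, 294, 300, 301, 308, 310, 356, 361, 364,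
  402, 403, 406, 420, 421, 422, 434, 436, 587, 589, 601, 602, 603, 617, 620, 621, 659,
  662, 667, 713, 715, 722, 723, 729, 805, 806, 813, 841, 843, 845, 868, 869, 873]

/-- Codes of the factors of length 11. -/
def c11 : List Nat := [300, 301, 308, 310, 356, 361, 364, 420, 421, 434, 436, 589, 601, 602, 603, 617, 620,
  621, 713, 722, 723, 729, 805, 806, 813, 841, 843, 845, 868, 869, 873, 1174, 1178,
  1179, 1202, 1204, 1206, 1234, 1241, 1242, 1318, 1324, 1325, 1334, 1426, 1427, 1430,
  1444, 1445, 1446, 1458, 1611, 1613, 1626, 1627, 1683, 1686, 1691, 1737, 1739, 1746,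
  1747]

/-- Codes of the factors of length 12. -/
def c12 : List Nat := [601, 602, 603, 617, 620, 621, 713, 722, 723, 729, 841, 843, 868, 869, 873, 1178, 1179,
  1202, 1204, 1206, 1234, 1241, 1242, 1426, 1427, 1444, 1446, 1458, 1611, 1613, 1626,
  1627, 1683, 1686, 1691, 1737, 1739, 1746, 1747, 2348, 2349, 2356, 2358, 2404, 2409,
  2412, 2468, 2469, 2482, 2484, 2637, 2649, 2651, 2668, 2669, 2853, 2854, 2861, 2889,
  2891, 2893, 2916, 2917, 3222, 3226, 3227, 3252, 3254, 3366, 3372, 3373, 3382, 3474,
  3475, 3478, 3492, 3493, 3494]

/-- Codes of the factors of length 14. -/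
def c14 : List Nat := [2404, 2409, 2412, 2468, 2469, 2482, 2484, 2853, 2854, 2889, 2893, 2916, 2917, 3366,
  3372, 3373, 3474, 3478, 3492, 3493, 3494, 4713, 4716, 4717, 4809, 4819, 4825, 4937,
  4939, 4964, 4965, 4969, 5707, 5709, 5779, 5787, 5833, 5835, 6444, 6445, 6452, 6454,
  6505, 6508, 6733, 6745, 6747, 6764, 6765, 6949, 6950, 6957, 6985, 6987, 6989, 9394,
  9396, 9398, 9426, 9433, 9434, 9618, 9619, 9636, 9638, 9650, 9875, 9878, 9929, 9931,
  9938, 9939, 10548, 10550, 10596, 10604, 10674, 10676, 11414, 11418, 11419, 11444,
  11446, 11558, 11564, 11574, 11666, 11667, 11670, 12889, 12890, 12891, 12905, 12909,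
  13010, 13011, 13017, 13466, 13467, 13490, 13494, 13529, 13530, 13899, 13901, 13914,
  13915, 13971, 13974, 13979]

/-- Codes of the factors of length 18. -/
def c18 : List Nat := [38477, 38555, 38601, 38603, 39501, 39513, 39515, 39725, 39753, 39755, 39757, 45658,
  45659, 45673, 45677, 46234, 46235, 46297, 46298, 46667, 46669, 46682, 53868, 53869,
  53961, 53977, 55596, 55597, 55657, 55660, 55885, 55897, 55916, 75414, 75467, 75474,
  75475, 76950, 76954, 76955, 77110, 77202, 77203, 77206, 79003, 79026, 79030, 79435,
  79450, 79451, 79507, 79510, 79515, 91316, 91318, 91346, 91354, 92468, 92470, 92594,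
  92596, 93334, 93338, 93364, 103113, 103123, 103129, 103241, 103243, 103273, 104083,
  104091, 104137, 107730, 107737, 107738, 107922, 107923, 107954, 108233, 108235,
  108242, 111193, 111194, 111195, 111209, 111314, 111315, 111321, 111770, 111771,
  111794, 111833, 150310, 150349, 150372, 150373, 150822, 150828, 150829, 150934,
  150948, 150949, 150950, 153901, 153908, 153910, 154189, 154220, 154221, 154405,
  154406, 154413, 158006, 158052, 158060, 158870, 158900, 158902, 159014, 159020,
  159030, 168779, 168805, 168809, 169547, 169549, 169673, 169675, 170789, 170797,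
  170825, 170827, 182628, 182633, 182636, 182692, 182693, 182708, 183113, 183117,
  183140, 184937, 184940, 184941, 185033, 185188, 185189, 185193, 186668, 186669,
  186676, 186729, 206227, 206246, 206258, 206483, 206486, 206546, 206547, 208166,
  208182, 208274, 208275, 215461, 215474, 215476, 215845, 215846, 215908, 215909,
  216466, 216470, 216484, 216485, 222386, 222388, 222390, 222418, 222628, 222630,
  222642, 223540, 223542, 223588, 223666]

theorem f4 (H : Kol s) : Fac s 4 c4 := step H (by norm_num) (fac_all s) (by decide +kernel)
theorem f5 (H : Kol s) : Fac s 5 c5 := step H (by norm_num) (f4 H) (by decide +kernel)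
theorem f6 (H : Kol s) : Fac s 6 c6 := step H (by norm_num) (f5 H) (by decide +kernel)
theorem f7 (H : Kol s) : Fac s 7 c7 := step H (by norm_num) (f6 H) (by decide +kernel)
theorem f9 (H : Kol s) : Fac s 9 c9 := step H (by norm_num) (f7 H) (by decide +kernel)
theorem f11 (H : Kol s) : Fac s 11 c11 := step H (by norm_num) (f9 H) (by decide +kernel)
theorem f14 (H : Kol s) : Fac s 14 c14 := step H (by norm_num) (f11 H) (by decide +kernel)
theorem f18 (H : Kol s) : Fac s 18 c18 := step H (by norm_num) (f14 H) (by decide +kernel)
theorem f12 (H : Kol s) : Fac s 12 c12 := (f14 H).restrict (by norm_num) (by decide +kernel)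
theorem f10 (H : Kol s) : Fac s 10 c10 := (f14 H).restrict (by norm_num) (by decide +kernel)
theorem f8 (H : Kol s) : Fac s 8 c8 := (f14 H).restrict (by norm_num) (by decide +kernel)
theorem f2 (H : Kol s) : Fac s 2 c2 := (f14 H).restrict (by norm_num) (by decide +kernel)

theorem k2 : (c2.all fun c => chkR 15 (dec 2 c)) = true := by decide +kernel
theorem k4 : (c4.all fun c => chkR 15 (dec 4 c)) = true := by decide +kernel
theorem k6 : (c6.all fun c => chkR 15 (dec 6 c)) = true := by decide +kernel
theorem k8 : (c8.all fun c => chkR 15 (dec 8 c)) = true := by decide +kernel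
theorem k12 : (c12.all fun c => chkR 15 (dec 12 c)) = true := by decide +kernel

end Pool.Agent.Lib.Kol45
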